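import Mathlib

/-!
The unnormalised Gaussian weight on `ℝ ^ N`: translation, tails in one direction, small balls.
-/

namespace Pool.Agent.H8.SR

open MeasureTheory Set
open scoped RealInnerProductSpace

noncomputable section

variable {N : ℕ}

/-- the Euclidean space -/
abbrev Eu (N : ℕ) : Type := EuclideanSpace ℝ (Fin N)

/-- the Gaussian weight -/
def gw (g : Eu N) : ℝ := Real.exp (-(1 / 2) * ‖g‖ ^ 2)

/-- the Gaussian mass of a set -/
def P (S : Set (Eu N)) : ℝ := ∫ g, S.indicator gw g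

lemma gw_pos (g : Eu N) : 0 < gw g := Real.exp_pos _

lemma gw_int : Integrable (gw (N := N)) := by
  have h : ∫ u : Eu N, Real.exp (-(1 / 2 : ℝ) * ‖u‖ ^ 2) =
      (Real.pi / (1 / 2)) ^ ((N : ℝ) / 2) := by
    rw [GaussianFourier.integral_rexp_neg_mul_sq_norm (by norm_num), finrank_euclideanSpace,
      Fintype.card_fin]
  apply Integrable.of_integral_ne_zero
  have h2 : ∫ u : Eu N, gw u = (Real.pi / (1 / 2)) ^ ((N : ℝ) / 2) := h
  rw [h2]
  have := Real.pi_pos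
  positivity

lemma P_nonneg (S : Set (Eu N)) : 0 ≤ P S :=
  integral_nonneg fun g => indicator_nonneg (fun g _ => (gw_pos g).le) g

lemma P_mono {S T : Set (Eu N)} (hS : MeasurableSet S) (hT : MeasurableSet T) (h : S ⊆ T) :
    P S ≤ P T :=
  integral_mono (gw_int.indicator hS) (gw_int.indicator hT)
    (indicator_le_indicator_of_subset h fun g => (gw_pos g).le)

lemma P_univ_pos : 0 < P (univ : Set (Eu N)) := by
  have h2 : ∫ u : Eu N, gw u = (Real.pi / (1 / 2)) ^ ((N : ℝ) / 2) := by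
    have h : ∫ u : Eu N, Real.exp (-(1 / 2 : ℝ) * ‖u‖ ^ 2) =
        (Real.pi / (1 / 2)) ^ ((N : ℝ) / 2) := by
      rw [GaussianFourier.integral_rexp_neg_mul_sq_norm (by norm_num), finrank_euclideanSpace,
        Fintype.card_fin]
    exact h
  rw [P]
  simp only [indicator_univ]
  rw [h2]
  have := Real.pi_pos
  positivity

/-- the weight of a translate -/
lemma gw_shift (h g : Eu N) : gw (g - h) = Real.exp (⟪h, g⟫ - ‖h‖ ^ 2 / 2) * gw g := by
  rw [gw, gw, ← Real.exp_add, norm_sub_sq_real, real_inner_comm]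
  congr 1
  ring

/-- the mass of a translate -/
lemma P_shift (S : Set (Eu N)) (h : Eu N) :
    P ((fun g => g + h) ⁻¹' S) =
      ∫ g, S.indicator (fun g => Real.exp (⟪h, g⟫ - ‖h‖ ^ 2 / 2) * gw g) g := by
  rw [P, ← integral_sub_right_eq_self _ h]
  congr 1
  funext g
  by_cases hg : g ∈ S
  · have h1 : g - h ∈ (fun g => g + h) ⁻¹' S := by simpa using hg
    rw [indicator_of_mem h1, indicator_of_mem hg, gw_shift]
  · have h1 : g - h ∉ (fun g => g + h) ⁻¹' S := by simpa using hg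
    rw [indicator_of_notMem h1, indicator_of_notMem hg]

lemma shift_int (h : Eu N) :
    Integrable (fun g : Eu N => Real.exp (⟪h, g⟫ - ‖h‖ ^ 2 / 2) * gw g) := by
  refine (gw_int.comp_sub_right h).congr (Filter.Eventually.of_forall fun g => ?_)
  simp only
  rw [gw_shift]

/-- a lower bound for the mass of a set in terms of a translate on which the factor is bounded -/
lemma P_ge_shift {A B : Set (Eu N)} (hA : MeasurableSet A) (hB : MeasurableSet B) (h : Eu N)
    (c : ℝ) (hAB : ∀ g ∈ B, g + h ∈ A)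
    (hcB : ∀ g ∈ B, c ≤ Real.exp (-⟪h, g⟫ - ‖h‖ ^ 2 / 2)) : c * P B ≤ P A := by
  have h1 : P A = P ((fun g => g + -h) ⁻¹' ((fun g => g + h) ⁻¹' A)) := by
    congr 1
    ext g
    simp
  have hA' : MeasurableSet ((fun g : Eu N => g + h) ⁻¹' A) := hA.preimage (measurable_add_const h)
  rw [h1, P_shift, P, ← integral_const_mul]
  refine integral_mono ((gw_int.indicator hB).const_mul c) ((shift_int (-h)).indicator hA') ?_
  intro g
  simp only
  by_cases hg : g ∈ B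
  · have h2 : g ∈ (fun g : Eu N => g + h) ⁻¹' A := hAB g hg
    rw [indicator_of_mem hg, indicator_of_mem h2, inner_neg_left, norm_neg]
    exact mul_le_mul_of_nonneg_right (hcB g hg) (gw_pos g).le
  · rw [indicator_of_notMem hg, mul_zero]
    exact indicator_nonneg (fun g _ => mul_nonneg (Real.exp_pos _).le (gw_pos g).le) g

/-- an upper bound for the mass of a set in terms of a translate on which the factor is bounded -/
lemma P_le_shift {A B : Set (Eu N)} (hA : MeasurableSet A) (hB : MeasurableSet B) (h : Eu N)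
    (c : ℝ) (hAB : ∀ g ∈ A, g - h ∈ B)
    (hcB : ∀ g ∈ B, Real.exp (-⟪h, g⟫ - ‖h‖ ^ 2 / 2) ≤ c) : P A ≤ c * P B := by
  have h1 : P A = P ((fun g => g + -h) ⁻¹' ((fun g => g + h) ⁻¹' A)) := by
    congr 1
    ext g
    simp
  have hA' : MeasurableSet ((fun g : Eu N => g + h) ⁻¹' A) := hA.preimage (measurable_add_const h)
  rw [h1, P_shift, P, ← integral_const_mul]
  refine integral_mono ((shift_int (-h)).indicator hA') ((gw_int.indicator hB).const_mul c) ?_
  intro g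
  simp only
  by_cases hg : g ∈ (fun g : Eu N => g + h) ⁻¹' A
  · have h2 : g ∈ B := by
      have := hAB (g + h) hg
      simpa using this
    rw [indicator_of_mem hg, indicator_of_mem h2, inner_neg_left, norm_neg]
    exact mul_le_mul_of_nonneg_right (hcB g h2) (gw_pos g).le
  · rw [indicator_of_notMem hg]
    by_cases hg2 : g ∈ B
    · have := (Real.exp_pos _).le.trans (hcB g hg2)
      rw [indicator_of_mem hg2]
      exact mul_nonneg this (gw_pos g).le
    · rw [indicator_of_notMem hg2, mul_zero]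

/-- finite union bound -/
lemma P_le_sum {ι : Type*} (s : Finset ι) (A : Set (Eu N)) (B : ι → Set (Eu N))
    (hA : MeasurableSet A) (hB : ∀ i ∈ s, MeasurableSet (B i)) (h : ∀ g ∈ A, ∃ i ∈ s, g ∈ B i) :
    P A ≤ ∑ i ∈ s, P (B i) := by
  simp only [P]
  rw [← integral_finsetSum s fun i hi => gw_int.indicator (hB i hi)]
  refine integral_mono (gw_int.indicator hA)
    (integrable_finsetSum s fun i hi => gw_int.indicator (hB i hi)) ?_
  intro g
  simp only
  by_cases hg : g ∈ A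
  · obtain ⟨i, hi, hgi⟩ := h g hg
    rw [indicator_of_mem hg]
    calc gw g = (B i).indicator gw g := by rw [indicator_of_mem hgi]
      _ ≤ ∑ i ∈ s, (B i).indicator gw g :=
        Finset.single_le_sum (f := fun i => (B i).indicator gw g)
          (fun j _ => indicator_nonneg (fun g _ => (gw_pos g).le) g) hi
  · rw [indicator_of_notMem hg]
    exact Finset.sum_nonneg fun j _ => indicator_nonneg (fun g _ => (gw_pos g).le) g

lemma meas_ge (z : Eu N) (t : ℝ) : MeasurableSet {g : Eu N | t ≤ ⟪z, g⟫} :=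
  measurableSet_le measurable_const (continuous_const.inner continuous_id).measurable

lemma meas_abs (z : Eu N) (c t : ℝ) : MeasurableSet {g : Eu N | |⟪z, g⟫ - c| ≤ t} :=
  measurableSet_le
    (((continuous_const.inner continuous_id).sub continuous_const).abs).measurable
    measurable_const

/-- the set does not change under translations in the direction `z` -/
def Inv (S : Set (Eu N)) (z : Eu N) : Prop := ∀ g ∈ S, ∀ s : ℝ, g + s • z ∈ S

/-- the tail in a direction in which the set is invariant -/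
lemma tail {S : Set (Eu N)} (hS : MeasurableSet S) {z : Eu N} (hz : ‖z‖ = 1) (hinv : Inv S z)
    {t : ℝ} (ht : 0 ≤ t) : P (S ∩ {g | t ≤ ⟪z, g⟫}) ≤ Real.exp (-(t ^ 2 / 2)) * P S := by
  have h2 : S ⊆ (fun g : Eu N => g + t • z) ⁻¹' S := fun g hg => hinv g hg t
  have h3 : (fun g : Eu N => g + t • z) ⁻¹' S ⊆ S := by
    intro g hg
    have := hinv _ hg (-t)
    simpa using this
  have h1 : P S = ∫ g, S.indicator (fun g => Real.exp (⟪t • z, g⟫ - ‖t • z‖ ^ 2 / 2) * gw g) g := by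
    rw [← P_shift, subset_antisymm h3 h2]
  rw [h1, P, ← integral_const_mul]
  refine integral_mono (gw_int.indicator (hS.inter (meas_ge z t)))
    (((shift_int (t • z)).indicator hS).const_mul _) ?_
  intro g
  simp only
  by_cases hg : g ∈ S ∩ {g | t ≤ ⟪z, g⟫}
  · have hg2 : t ≤ ⟪z, g⟫ := hg.2
    rw [indicator_of_mem hg, indicator_of_mem hg.1, ← mul_assoc, ← Real.exp_add, inner_smul_left,
      norm_smul, hz]
    refine le_mul_of_one_le_left (gw_pos g).le (Real.one_le_exp ?_)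
    simp only [conj_trivial, Real.norm_eq_abs, mul_one, sq_abs]
    nlinarith
  · rw [indicator_of_notMem hg]
    exact mul_nonneg (Real.exp_pos _).le
      (indicator_nonneg (fun g _ => mul_nonneg (Real.exp_pos _).le (gw_pos g).le) g)

/-- small balls in a direction in which the set is invariant -/
lemma small {S : Set (Eu N)} (hS : MeasurableSet S) {z : Eu N} (hz : ‖z‖ = 1) (hinv : Inv S z)
    {ε : ℝ} (h0 : 0 < ε) (h1 : ε ≤ 1 / 6) :
    ε / 10 * P S ≤ P (S ∩ {g | |⟪z, g⟫ - 0| ≤ ε}) := by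
  obtain ⟨n, hn⟩ : ∃ n : ℕ, n = ⌈3 / ε⌉₊ := ⟨_, rfl⟩
  have hn1 : 3 / ε ≤ n := by rw [hn]; exact Nat.le_ceil _
  have hn2 : (n : ℝ) < 3 / ε + 1 := by rw [hn]; exact Nat.ceil_lt_add_one (by positivity)
  have hinv' : Inv S (-z) := by
    intro g hg s
    have := hinv g hg (-s)
    simpa using this
  have hz' : ‖-z‖ = 1 := by rw [norm_neg, hz]
  -- the cells
  have hcell : ∀ k ∈ Finset.range n,
      P (S ∩ {g | |⟪z, g⟫ - ((2 * k + 1) * ε - 3)| ≤ ε}) ≤
        3 * P (S ∩ {g | |⟪z, g⟫ - 0| ≤ ε}) := by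
    intro k hk
    have hk' : (k : ℝ) + 1 ≤ n := by exact_mod_cast Finset.mem_range.1 hk
    obtain ⟨c, hc⟩ : ∃ c : ℝ, c = (2 * k + 1) * ε - 3 := ⟨_, rfl⟩
    have hk0 : (0 : ℝ) ≤ k := Nat.cast_nonneg k
    have hc1 : -3 ≤ c := by rw [hc]; nlinarith
    have hc2 : c ≤ 4 := by
      have h2 : (k : ℝ) + 1 < 3 / ε + 1 := lt_of_le_of_lt hk' hn2
      have h3 : (k : ℝ) * ε < 3 := by
        have h4 : (k : ℝ) < 3 / ε := by linarith
        rwa [lt_div_iff₀ h0] at h4
      rw [hc]; nlinarith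
    rw [← hc]
    refine P_le_shift (hS.inter (meas_abs z c ε)) (hS.inter (meas_abs z 0 ε)) (c • z) 3 ?_ ?_
    · intro g hg
      refine ⟨?_, ?_⟩
      · have := hinv g hg.1 (-c)
        rw [neg_smul, ← sub_eq_add_neg] at this
        exact this
      · have h2 : |⟪z, g⟫ - c| ≤ ε := hg.2
        simp only [mem_setOf_eq]
        rw [inner_sub_right, inner_smul_right, real_inner_self_eq_norm_sq, hz]
        have h3 : ⟪z, g⟫ - c * 1 ^ 2 - 0 = ⟪z, g⟫ - c := by ring
        rw [h3]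
        exact h2
    · intro g hg
      have h2 : |⟪z, g⟫ - 0| ≤ ε := hg.2
      rw [sub_zero] at h2
      have h3 := abs_le.1 h2
      have h4 : Real.exp (-⟪c • z, g⟫ - ‖c • z‖ ^ 2 / 2) ≤ Real.exp 1 := by
        refine Real.exp_le_exp.2 ?_
        rw [inner_smul_left, norm_smul, hz]
        simp only [conj_trivial, Real.norm_eq_abs, mul_one, sq_abs]
        have h5 : -(c * ⟪z, g⟫) ≤ |c| * ε := by
          calc -(c * ⟪z, g⟫) ≤ |c * ⟪z, g⟫| := neg_le_abs _
            _ = |c| * |⟪z, g⟫| := abs_mul _ _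
            _ ≤ |c| * ε := mul_le_mul_of_nonneg_left h2 (abs_nonneg _)
        have h6 : |c| ≤ 4 := abs_le.2 ⟨by linarith, hc2⟩
        nlinarith [sq_nonneg c, abs_nonneg c]
      exact h4.trans (by linarith [Real.exp_one_lt_d9])
  -- the tails
  have he : Real.exp (-((3 : ℝ) ^ 2 / 2)) ≤ 1 / 40 := by
    have h2 : (2.7 : ℝ) < Real.exp 1 := by linarith [Real.exp_one_gt_d9]
    have h3 : (40 : ℝ) ≤ Real.exp 4 := by
      have h4 : Real.exp 4 = Real.exp 1 ^ 4 := by rw [← Real.exp_nat_mul]; norm_num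
      rw [h4]
      calc (40 : ℝ) ≤ 2.7 ^ 4 := by norm_num
        _ ≤ Real.exp 1 ^ 4 := pow_le_pow_left₀ (by norm_num) h2.le 4
    have h5 : Real.exp 4 ≤ Real.exp ((3 : ℝ) ^ 2 / 2) := Real.exp_le_exp.2 (by norm_num)
    rw [Real.exp_neg, ← one_div]
    exact one_div_le_one_div_of_le (by norm_num) (h3.trans h5)
  have ht1 := tail hS hz hinv (t := 3) (by norm_num)
  have ht2 := tail hS hz' hinv' (t := 3) (by norm_num)
  -- the union bound
  have hun := P_le_sum (Finset.range (n + 2)) S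
    (fun k : ℕ => if k = n then S ∩ {g | 3 ≤ ⟪z, g⟫} else
      if k = n + 1 then S ∩ {g | 3 ≤ ⟪-z, g⟫} else
        S ∩ {g | |⟪z, g⟫ - ((2 * k + 1) * ε - 3)| ≤ ε}) hS
    (by
      intro k _
      split_ifs
      · exact hS.inter (meas_ge z 3)
      · exact hS.inter (meas_ge (-z) 3)
      · exact hS.inter (meas_abs z _ ε))
    (by
      intro g hg
      rcases le_or_gt 3 ⟪z, g⟫ with h2 | h2
      · exact ⟨n, Finset.mem_range.2 (by omega), by rw [if_pos rfl]; exact ⟨hg, h2⟩⟩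
      rcases le_or_gt 3 ⟪-z, g⟫ with h3 | h3
      · exact ⟨n + 1, Finset.mem_range.2 (by omega), by
          rw [if_neg (by omega), if_pos rfl]; exact ⟨hg, h3⟩⟩
      rw [inner_neg_left] at h3
      obtain ⟨x, hx⟩ : ∃ x, x = ⟪z, g⟫ + 3 := ⟨_, rfl⟩
      have hx0 : 0 ≤ x / (2 * ε) := div_nonneg (by linarith) (by linarith)
      have hk1 := Nat.floor_le hx0
      have hk2 := Nat.lt_floor_add_one (x / (2 * ε))
      have hk3 : ⌊x / (2 * ε)⌋₊ < n := by
        have h4 : (⌊x / (2 * ε)⌋₊ : ℝ) < n := by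
          refine lt_of_le_of_lt hk1 (lt_of_lt_of_le ?_ hn1)
          rw [div_lt_div_iff₀ (by linarith) h0]
          nlinarith
        exact_mod_cast h4
      refine ⟨⌊x / (2 * ε)⌋₊, Finset.mem_range.2 (by omega), ?_⟩
      rw [if_neg (by omega), if_neg (by omega)]
      refine ⟨hg, ?_⟩
      simp only [mem_setOf_eq]
      rw [le_div_iff₀ (by linarith)] at hk1
      rw [div_lt_iff₀ (by linarith)] at hk2
      rw [abs_le]
      constructor <;> nlinarith)
  rw [Finset.sum_range_succ, Finset.sum_range_succ] at hun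
  simp only [if_true, Nat.succ_ne_self, if_false, add_eq_left, one_ne_zero] at hun
  have hsum : ∑ k ∈ Finset.range n, P (if k = n then S ∩ {g | 3 ≤ ⟪z, g⟫} else
      if k = n + 1 then S ∩ {g | 3 ≤ ⟪-z, g⟫} else
        S ∩ {g | |⟪z, g⟫ - ((2 * (k : ℝ) + 1) * ε - 3)| ≤ ε}) ≤
      n * (3 * P (S ∩ {g | |⟪z, g⟫ - 0| ≤ ε})) := by
    calc _ ≤ ∑ _k ∈ Finset.range n, 3 * P (S ∩ {g | |⟪z, g⟫ - 0| ≤ ε}) := by
          refine Finset.sum_le_sum fun k hk => ?_
          have := Finset.mem_range.1 hk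
          rw [if_neg (by omega), if_neg (by omega)]
          exact hcell k hk
      _ = _ := by rw [Finset.sum_const, Finset.card_range, nsmul_eq_mul]
  have hPS := P_nonneg S
  have hPB := P_nonneg (S ∩ {g | |⟪z, g⟫ - 0| ≤ ε})
  have h5 : P S ≤ n * (3 * P (S ∩ {g | |⟪z, g⟫ - 0| ≤ ε})) + 1 / 40 * P S + 1 / 40 * P S := by
    refine hun.trans ?_
    have h6 := mul_le_mul_of_nonneg_right he hPS
    linarith
  have h6 : (n : ℝ) * ε ≤ 19 / 6 := by
    have : (n : ℝ) * ε < (3 / ε + 1) * ε := mul_lt_mul_of_pos_right hn2 h0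
    have h7 : (3 / ε + 1) * ε = 3 + ε := by field_simp
    linarith
  have h7 : ε * P S * (19 / 20) ≤ 19 / 2 * P (S ∩ {g | |⟪z, g⟫ - 0| ≤ ε}) := by
    have h8 : ε * P S * (19 / 20) ≤ (n * ε) * (3 * P (S ∩ {g | |⟪z, g⟫ - 0| ≤ ε})) := by
      have := mul_le_mul_of_nonneg_left h5 h0.le
      linarith
    have h9 := mul_le_mul_of_nonneg_right h6 (mul_nonneg (by norm_num : (0 : ℝ) ≤ 3) hPB)
    linarith
  linarith

/-- a box around the origin with respect to two unit vectors -/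
lemma box (u₁ u₂ : Eu N) (h₁ : ‖u₁‖ = 1) (h₂ : ‖u₂‖ = 1) {δ : ℝ} (h0 : 0 < δ) (h1 : δ ≤ 1 / 3) :
    ∃ B : Set (Eu N), MeasurableSet B ∧ (δ / 20) ^ 2 * P (univ : Set (Eu N)) ≤ P B ∧
      ∀ g ∈ B, |⟪u₁, g⟫| ≤ δ ∧ |⟪u₂, g⟫| ≤ δ := by
  obtain ⟨ρ, hρ⟩ : ∃ ρ : ℝ, ρ = ⟪u₁, u₂⟫ := ⟨_, rfl⟩
  have hρ1 : |ρ| ≤ 1 := by
    rw [hρ]
    refine (abs_real_inner_le_norm _ _).trans ?_
    rw [h₁, h₂, mul_one]
  have hS := small (MeasurableSet.univ) h₁ (fun _ _ _ => mem_univ _) (ε := δ / 2) (by linarith)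
    (by linarith)
  rw [univ_inter] at hS
  have hPu := P_nonneg (univ : Set (Eu N))
  obtain ⟨w, hw⟩ : ∃ w : Eu N, w = u₂ - ρ • u₁ := ⟨_, rfl⟩
  have hu2 : u₂ = ρ • u₁ + w := by rw [hw]; abel
  rcases eq_or_ne w 0 with hw0 | hw0
  · refine ⟨{g | |⟪u₁, g⟫ - 0| ≤ δ / 2}, meas_abs _ _ _, ?_, ?_⟩
    · refine le_trans ?_ hS
      refine mul_le_mul_of_nonneg_right ?_ hPu
      nlinarith
    · intro g hg
      simp only [mem_setOf_eq, sub_zero] at hg
      refine ⟨by linarith, ?_⟩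
      rw [hu2, hw0, add_zero, inner_smul_left]
      simp only [conj_trivial]
      rw [abs_mul]
      nlinarith [abs_nonneg ρ, abs_nonneg ⟪u₁, g⟫]
  · have hwp : 0 < ‖w‖ := norm_pos_iff.2 hw0
    have hwo : ⟪u₁, w⟫ = 0 := by
      rw [hw, inner_sub_right, inner_smul_right, real_inner_self_eq_norm_sq, h₁, hρ]
      ring
    have hw1 : ‖w‖ ≤ 1 := by
      have h3 : ‖w‖ ^ 2 = 1 - ρ ^ 2 := by
        rw [hw, norm_sub_sq_real, inner_smul_right, norm_smul, h₁, h₂, real_inner_comm, ← hρ]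
        simp only [Real.norm_eq_abs, mul_one, sq_abs]
        ring
      nlinarith [sq_nonneg ρ]
    obtain ⟨q, hq⟩ : ∃ q : Eu N, q = (‖w‖)⁻¹ • w := ⟨_, rfl⟩
    have hq1 : ‖q‖ = 1 := by
      rw [hq, norm_smul, norm_inv, norm_norm]
      exact inv_mul_cancel₀ hwp.ne'
    have hwq : w = ‖w‖ • q := by
      rw [hq, smul_smul, mul_inv_cancel₀ hwp.ne', one_smul]
    have hqo : ⟪u₁, q⟫ = 0 := by rw [hq, inner_smul_right, hwo, mul_zero]
    have hinv : Inv {g : Eu N | |⟪u₁, g⟫ - 0| ≤ δ / 2} q := by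
      intro g hg s
      simp only [mem_setOf_eq] at hg ⊢
      rw [inner_add_right, inner_smul_right, hqo, mul_zero, add_zero]
      exact hg
    have hB := small (meas_abs u₁ 0 (δ / 2)) hq1 hinv (ε := δ / 2) (by linarith) (by linarith)
    refine ⟨_, (meas_abs u₁ 0 (δ / 2)).inter (meas_abs q 0 (δ / 2)), ?_, ?_⟩
    · refine le_trans ?_ hB
      have := mul_le_mul_of_nonneg_left hS (by positivity : 0 ≤ δ / 2 / 10)
      refine le_trans (le_of_eq ?_) this
      ring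
    · intro g hg
      have hg1 : |⟪u₁, g⟫ - 0| ≤ δ / 2 := hg.1
      have hg2 : |⟪q, g⟫ - 0| ≤ δ / 2 := hg.2
      rw [sub_zero] at hg1 hg2
      refine ⟨by linarith, ?_⟩
      rw [hu2, hwq, inner_add_left, inner_smul_left, inner_smul_left]
      simp only [conj_trivial]
      refine (abs_add_le _ _).trans ?_
      rw [abs_mul, abs_mul, abs_norm]
      nlinarith [abs_nonneg ρ, abs_nonneg ⟪u₁, g⟫, abs_nonneg ⟪q, g⟫]

/-- the joint tail of two correlated directions -/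
lemma joint (u₁ u₂ : Eu N) (h₁ : ‖u₁‖ = 1) (h₂ : ‖u₂‖ = 1) (hρ : 0 ≤ ⟪u₁, u₂⟫) {T t₁ t₂ : ℝ}
    (hT : 0 ≤ T) (ht₁ : t₁ ≤ T) (ht₂ : t₂ ≤ T) :
    Real.exp (-1) / (14400 * (1 + T) ^ 2) * Real.exp (-(T ^ 2 / (1 + ⟪u₁, u₂⟫))) *
      P (univ : Set (Eu N)) ≤ P ({g | t₁ ≤ ⟪u₁, g⟫} ∩ {g | t₂ ≤ ⟪u₂, g⟫}) := by
  obtain ⟨ρ, hρe⟩ : ∃ ρ : ℝ, ρ = ⟪u₁, u₂⟫ := ⟨_, rfl⟩
  rw [← hρe] at hρ ⊢
  obtain ⟨δ, hδ⟩ : ∃ δ : ℝ, δ = 1 / (6 * (1 + T)) := ⟨_, rfl⟩
  have hδ0 : 0 < δ := by rw [hδ]; positivity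
  have hδT : δ * (1 + T) = 1 / 6 := by rw [hδ]; field_simp
  have hδ1 : δ ≤ 1 / 6 := by nlinarith
  obtain ⟨B, hBm, hB, hBg⟩ := box u₁ u₂ h₁ h₂ hδ0 (by linarith)
  have hρ1 : 0 < 1 + ρ := by linarith
  obtain ⟨h, hh⟩ : ∃ h : Eu N, h = ((T + δ) / (1 + ρ)) • (u₁ + u₂) := ⟨_, rfl⟩
  have hh1 : ⟪u₁, h⟫ = T + δ := by
    rw [hh, inner_smul_right, inner_add_right, real_inner_self_eq_norm_sq, h₁, ← hρe]
    field_simp
  have hh2 : ⟪u₂, h⟫ = T + δ := by
    rw [hh, inner_smul_right, inner_add_right, real_inner_self_eq_norm_sq, h₂, real_inner_comm,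
      ← hρe]
    field_simp
    ring
  have hhn : ‖h‖ ^ 2 = 2 * (T + δ) ^ 2 / (1 + ρ) := by
    rw [← real_inner_self_eq_norm_sq]
    nth_rewrite 1 [hh]
    rw [inner_smul_left, inner_add_left, hh1, hh2]
    simp only [conj_trivial]
    field_simp
    ring
  have key := P_ge_shift (A := {g | t₁ ≤ ⟪u₁, g⟫} ∩ {g | t₂ ≤ ⟪u₂, g⟫})
    ((meas_ge u₁ t₁).inter (meas_ge u₂ t₂)) hBm h
    (Real.exp (-1) * Real.exp (-(T ^ 2 / (1 + ρ)))) ?_ ?_
  · refine le_trans ?_ key
    have e1 : Real.exp (-1) / (14400 * (1 + T) ^ 2) * Real.exp (-(T ^ 2 / (1 + ρ))) *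
        P (univ : Set (Eu N)) = Real.exp (-1) * Real.exp (-(T ^ 2 / (1 + ρ))) *
          ((δ / 20) ^ 2 * P (univ : Set (Eu N))) := by
      rw [hδ]
      field_simp
      ring
    rw [e1]
    exact mul_le_mul_of_nonneg_left hB (by positivity)
  · intro g hg
    obtain ⟨hg1, hg2⟩ := hBg g hg
    have h3 := abs_le.1 hg1
    have h4 := abs_le.1 hg2
    refine ⟨?_, ?_⟩
    · simp only [mem_setOf_eq]
      rw [inner_add_right, hh1]
      linarith
    · simp only [mem_setOf_eq]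
      rw [inner_add_right, hh2]
      linarith
  · intro g hg
    obtain ⟨hg1, hg2⟩ := hBg g hg
    have h3 := abs_le.1 hg1
    have h4 := abs_le.1 hg2
    rw [← Real.exp_add]
    refine Real.exp_le_exp.2 ?_
    rw [hhn, hh, inner_smul_left, inner_add_left]
    simp only [conj_trivial]
    have e1 : 0 ≤ (T + δ) / (1 + ρ) := by positivity
    have e2 : (T + δ) / (1 + ρ) * (⟪u₁, g⟫ + ⟪u₂, g⟫) ≤ (T + δ) / (1 + ρ) * (2 * δ) :=
      mul_le_mul_of_nonneg_left (by linarith) e1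
    have e3 : (T + δ) / (1 + ρ) * (2 * δ) + 2 * (T + δ) ^ 2 / (1 + ρ) / 2 =
        (T ^ 2 + (4 * δ * T + 3 * δ ^ 2)) / (1 + ρ) := by
      field_simp
      ring
    have e4 : (4 * δ * T + 3 * δ ^ 2) / (1 + ρ) ≤ 1 := by
      rw [div_le_one hρ1]
      have : δ * T ≤ 1 / 6 := by nlinarith
      nlinarith
    have e5 : (T ^ 2 + (4 * δ * T + 3 * δ ^ 2)) / (1 + ρ) =
        T ^ 2 / (1 + ρ) + (4 * δ * T + 3 * δ ^ 2) / (1 + ρ) := add_div _ _ _
    linarith

end

end Pool.Agent.H8.SR
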