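import Pool.Agent.H8.SR.Round

/-!
The value of a d-to-1 Label Cover instance with a value-one solution of the basic semidefinite
relaxation is at least `R ^ (-(√d - 1) / (√d + 1))`, up to a factor logarithmic in `R`.
-/

namespace Pool.Agent.H8.SR

open Finset MeasureTheory Pool.Agent.H76.DTO
open scoped RealInnerProductSpace

noncomputable section

variable {V W : Type} {d R N : ℕ}

/-- the labels of large weight -/
def hv (x : Fin R → Eu N) : Finset (Fin R) :=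
  Finset.univ.filter (fun a => 1 / (2 * (R : ℝ)) ≤ ‖x a‖ ^ 2)

lemma hv_ne {x : Fin R → Eu N} (hR : 0 < R) {a : Fin R} (ha : a ∈ hv x) : x a ≠ 0 := by
  have h1 := (Finset.mem_filter.1 ha).2
  intro h
  rw [h, norm_zero] at h1
  have : 0 < 1 / (2 * (R : ℝ)) := by
    have : (0 : ℝ) < R := by exact_mod_cast hR
    positivity
  norm_num at h1
  rw [one_div, mul_inv] at this
  linarith

/-- half of the weight is on labels of large weight -/
lemma hv_half {x : Fin R → Eu N} (hR : 0 < R) (hx : ∑ a, ‖x a‖ ^ 2 = 1) :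
    1 / 2 ≤ ∑ a ∈ hv x, ‖x a‖ ^ 2 := by
  have hR' : (0 : ℝ) < R := by exact_mod_cast hR
  have h1 := Finset.sum_filter_add_sum_filter_not Finset.univ
    (fun a => 1 / (2 * (R : ℝ)) ≤ ‖x a‖ ^ 2) (fun a => ‖x a‖ ^ 2)
  have h2 : ∑ a ∈ Finset.univ.filter (fun a => ¬ 1 / (2 * (R : ℝ)) ≤ ‖x a‖ ^ 2), ‖x a‖ ^ 2 ≤
      1 / 2 := by
    calc _ ≤ ∑ _a ∈ Finset.univ.filter (fun a => ¬ 1 / (2 * (R : ℝ)) ≤ ‖x a‖ ^ 2),
          1 / (2 * (R : ℝ)) :=
          Finset.sum_le_sum fun a ha => (not_le.1 (Finset.mem_filter.1 ha).2).le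
      _ = (Finset.univ.filter (fun a => ¬ 1 / (2 * (R : ℝ)) ≤ ‖x a‖ ^ 2)).card *
          (1 / (2 * (R : ℝ))) := by rw [Finset.sum_const, nsmul_eq_mul]
      _ ≤ R * (1 / (2 * (R : ℝ))) := by
          refine mul_le_mul_of_nonneg_right ?_ (by positivity)
          have := Finset.card_le_univ
            (Finset.univ.filter (fun a : Fin R => ¬ 1 / (2 * (R : ℝ)) ≤ ‖x a‖ ^ 2))
          rw [Fintype.card_fin] at this
          exact_mod_cast this
      _ = 1 / 2 := by field_simp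
  rw [hx] at h1
  rw [hv]
  linarith

/-- the power mean inequality -/
lemma hv_pow {x : Fin R → Eu N} (hR : 0 < R) (hd : 0 < d) (hx : ∑ a, ‖x a‖ ^ 2 = 1) {s : ℝ}
    (hs : 1 ≤ s) :
    R * (1 / (2 * d * R)) ^ s ≤ ∑ a ∈ hv x, (‖x a‖ ^ 2 / d : ℝ) ^ s := by
  have hR' : (0 : ℝ) < R := by exact_mod_cast hR
  have hd' : (0 : ℝ) < d := by exact_mod_cast hd
  have h1 := Real.rpow_arith_mean_le_arith_mean_rpow (Finset.univ : Finset (Fin R))
    (fun _ => 1 / (R : ℝ)) (fun a => if a ∈ hv x then ‖x a‖ ^ 2 / d else 0)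
    (fun _ _ => by positivity)
    (by rw [Finset.sum_const, Finset.card_univ, Fintype.card_fin, nsmul_eq_mul]; field_simp)
    (fun a _ => by split_ifs <;> positivity) hs
  rw [← Finset.mul_sum, ← Finset.mul_sum] at h1
  have h2 : ∑ a : Fin R, (if a ∈ hv x then ‖x a‖ ^ 2 / (d : ℝ) else 0) =
      ∑ a ∈ hv x, ‖x a‖ ^ 2 / (d : ℝ) := by
    rw [Finset.sum_ite_mem, Finset.univ_inter]
  have h3 : ∑ a : Fin R, (if a ∈ hv x then ‖x a‖ ^ 2 / (d : ℝ) else 0) ^ s =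
      ∑ a ∈ hv x, (‖x a‖ ^ 2 / (d : ℝ)) ^ s := by
    have e1 : ∀ a : Fin R, (if a ∈ hv x then ‖x a‖ ^ 2 / (d : ℝ) else 0) ^ s =
        if a ∈ hv x then (‖x a‖ ^ 2 / (d : ℝ)) ^ s else 0 := by
      intro a
      split_ifs
      · rfl
      · exact Real.zero_rpow (by linarith)
    rw [Finset.sum_congr rfl fun a _ => e1 a, Finset.sum_ite_mem, Finset.univ_inter]
  rw [h2, h3] at h1
  have h4 : 1 / (2 * d * R : ℝ) ≤ 1 / R * ∑ a ∈ hv x, ‖x a‖ ^ 2 / (d : ℝ) := by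
    rw [← Finset.sum_div]
    have h5 := hv_half hR hx
    have h6 : 1 / (2 * d * R : ℝ) = 1 / R * (1 / 2 / d) := by field_simp
    rw [h6]
    have h7 : 0 ≤ 1 / (R : ℝ) := by positivity
    refine mul_le_mul_of_nonneg_left ?_ h7
    exact div_le_div_of_nonneg_right h5 hd'.le
  have h5 : (1 / (2 * d * R : ℝ)) ^ s ≤ (1 / R * ∑ a ∈ hv x, ‖x a‖ ^ 2 / (d : ℝ)) ^ s :=
    Real.rpow_le_rpow (by positivity) h4 (by linarith)
  have h6 := h5.trans h1
  calc (R : ℝ) * (1 / (2 * d * R)) ^ s ≤ R * (1 / R * ∑ a ∈ hv x, (‖x a‖ ^ 2 / (d : ℝ)) ^ s) :=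
        mul_le_mul_of_nonneg_left h6 hR'.le
    _ = _ := by field_simp

/-- the bound of the thresholds -/
lemma thr_bound (hR : 0 < R) (hd : 0 < d) {c : ℝ} (hc : 1 / (2 * (R : ℝ)) ≤ c) :
    (1 + thr (c / d)) ^ 2 ≤ 8 * d * (1 + Real.log R) := by
  have hR' : (0 : ℝ) < R := by exact_mod_cast hR
  have hd' : (0 : ℝ) < d := by exact_mod_cast hd
  have hR1 : (1 : ℝ) ≤ R := by exact_mod_cast hR
  have hd1 : (1 : ℝ) ≤ d := by exact_mod_cast hd
  have h0 : 0 < 1 / (2 * (R : ℝ)) / d := by positivity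
  have h1 : thr (c / d) ≤ thr (1 / (2 * (R : ℝ)) / d) :=
    thr_anti h0 (div_le_div_of_nonneg_right hc hd'.le)
  have h2 : thr (1 / (2 * (R : ℝ)) / d) ^ 2 = 2 * Real.log (2 * R * d) := by
    rw [thr_sq h0]
    · congr 2
      field_simp
    · rw [div_div, div_le_one (by positivity)]
      nlinarith
  have h3 : Real.log (2 * R * d) ≤ (2 * d - 1) + Real.log R := by
    have e1 : (2 * R * d : ℝ) = (2 * d) * R := by ring
    rw [e1, Real.log_mul (by positivity) hR'.ne']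
    have := Real.log_le_sub_one_of_pos (show (0 : ℝ) < 2 * d by positivity)
    linarith
  have h4 := thr_nonneg (c / d)
  have h5 : (1 + thr (c / d)) ^ 2 ≤ 2 + 2 * thr (1 / (2 * (R : ℝ)) / d) ^ 2 := by
    nlinarith [sq_nonneg (1 - thr (c / d))]
  have hl : 0 ≤ Real.log R := Real.log_nonneg hR1
  nlinarith

/-- averaging the rounding over the Gaussian vectors -/
lemma average [Fintype V] [Fintype W] (hd : 0 < d) (Φ : LabelCover V W d R)
    (hE : Φ.E.Nonempty) (S : PerfectSolution Φ N) (hR : 0 < R)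
    (b : V × W → Fin R → Fin (d * R)) (hb : ∀ e ∈ Φ.E, ∀ a ∈ hv (S.x e.1), Φ.π e (b e a) = a) :
    ∑ e ∈ Φ.E, ∑ a ∈ hv (S.x e.1), 4 / ((d : ℝ) + 3) ^ 2 *
      P (Sel (S.x e.1 a) ∩ Sel (S.y e.2 (b e a))) ≤
      Φ.E.card * Φ.value * P (Set.univ : Set (Eu N)) := by
  classical
  have hM : (0 : ℝ) < (d : ℝ) + 3 := by positivity
  have hnpos : (0 : ℝ) < (Φ.E.card : ℝ) := by exact_mod_cast hE.card_pos
  have : Nonempty (Fin R) := ⟨⟨0, hR⟩⟩
  have : Nonempty (Fin (d * R)) := ⟨⟨0, Nat.mul_pos hd hR⟩⟩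
  -- pointwise
  have hpt : ∀ g : Eu N, ∑ e ∈ Φ.E, ∑ a ∈ hv (S.x e.1),
      pr (S.x e.1) a g * pr (S.y e.2) (b e a) g ≤ Φ.E.card * Φ.value := by
    intro g
    obtain ⟨f, h, hfh⟩ := round Φ.E Φ.π (fun v a => pr (S.x v) a g) (fun w b => pr (S.y w) b g)
      (fun v a => pr_nonneg _ _ _) (fun w b => pr_nonneg _ _ _) (fun v => pr_sum _ _)
      (fun w => pr_sum _ _)
    have h1 : Φ.frac f h ≤ Φ.value :=
      le_ciSup (f := fun fg : (V → Fin R) × (W → Fin (d * R)) => Φ.frac fg.1 fg.2)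
        (Set.finite_range _).bddAbove (f, h)
    have h2 : ((Φ.E.filter (fun e => Φ.π e (h e.2) = f e.1)).card : ℝ) =
        Φ.E.card * Φ.frac f h := by
      rw [LabelCover.frac, mul_div_cancel₀ _ hnpos.ne']
    rw [h2] at hfh
    refine le_trans ?_ (hfh.trans (mul_le_mul_of_nonneg_left h1 hnpos.le))
    refine Finset.sum_le_sum fun e he => ?_
    have hinj : Set.InjOn (b e) (hv (S.x e.1) : Set (Fin R)) := by
      intro a ha a' ha' hh
      rw [← hb e he a ha, ← hb e he a' ha', hh]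
    have h3 : ∑ a ∈ hv (S.x e.1), pr (S.x e.1) a g * pr (S.y e.2) (b e a) g =
        ∑ c ∈ (hv (S.x e.1)).image (b e), pr (S.x e.1) (Φ.π e c) g * pr (S.y e.2) c g := by
      rw [Finset.sum_image hinj]
      refine Finset.sum_congr rfl fun a ha => ?_
      rw [hb e he a ha]
    rw [h3]
    exact Finset.sum_le_sum_of_subset_of_nonneg (Finset.subset_univ _)
      fun c _ _ => mul_nonneg (pr_nonneg _ _ _) (pr_nonneg _ _ _)
  -- integration
  have hint := fun (e : V × W) (a : Fin R) =>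
    lower_int (S.x e.1) (S.y e.2) a (b e a) ((d : ℝ) + 3)
  have hmain : ∑ e ∈ Φ.E, ∑ a ∈ hv (S.x e.1), 4 / ((d : ℝ) + 3) ^ 3 *
      (3 * ((d : ℝ) + 3) * P (Sel (S.x e.1 a) ∩ Sel (S.y e.2 (b e a))) -
      2 * (∑ a', P ((Sel (S.x e.1 a) ∩ Sel (S.y e.2 (b e a))) ∩ Sel (S.x e.1 a')) +
        ∑ b', P ((Sel (S.x e.1 a) ∩ Sel (S.y e.2 (b e a))) ∩ Sel (S.y e.2 b')))) ≤
      Φ.E.card * Φ.value * P (Set.univ : Set (Eu N)) := by
    have e1 : Φ.E.card * Φ.value * P (Set.univ : Set (Eu N)) =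
        ∫ g : Eu N, Φ.E.card * Φ.value * gw g := by
      rw [integral_const_mul, P]
      simp only [Set.indicator_univ]
    have e2 := fun (e : V × W) (a : Fin R) => (hint e a).2.symm
    rw [Finset.sum_congr rfl fun e _ => Finset.sum_congr rfl fun a _ => e2 e a, e1]
    rw [Finset.sum_congr rfl fun e _ => (integral_finsetSum (hv (S.x e.1))
      fun a _ => (hint e a).1).symm]
    rw [← integral_finsetSum Φ.E fun e _ => integrable_finsetSum (hv (S.x e.1))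
      fun a _ => (hint e a).1]
    refine integral_mono (integrable_finsetSum Φ.E fun e _ => integrable_finsetSum (hv (S.x e.1))
      fun a _ => (hint e a).1) (gw_int.const_mul _) ?_
    intro g
    simp only
    have h1 := mul_le_mul_of_nonneg_right (hpt g) (gw_pos g).le
    refine le_trans ?_ h1
    rw [Finset.sum_mul]
    refine Finset.sum_le_sum fun e _ => ?_
    rw [Finset.sum_mul]
    refine Finset.sum_le_sum fun a _ => ?_
    exact pointwise (S.x e.1) (S.y e.2) a (b e a) hM g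
  refine le_trans ?_ hmain
  refine Finset.sum_le_sum fun e he => Finset.sum_le_sum fun a ha => ?_
  have h1 := comp_x S he a (b e a) (hb e he a ha)
  have h2 := comp_y S he a (b e a) (hb e he a ha)
  have h3 : 4 / ((d : ℝ) + 3) ^ 2 * P (Sel (S.x e.1 a) ∩ Sel (S.y e.2 (b e a))) =
      4 / ((d : ℝ) + 3) ^ 3 * (((d : ℝ) + 3) *
        P (Sel (S.x e.1 a) ∩ Sel (S.y e.2 (b e a)))) := by
    field_simp
  rw [h3]
  refine mul_le_mul_of_nonneg_left ?_ (by positivity)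
  linarith

/-- **Rounding.** The value of an instance with a value-one solution of the basic semidefinite
relaxation. -/
theorem rounding [Fintype V] [Fintype W] (hd : 0 < d) (Φ : LabelCover V W d R)
    (hE : Φ.E.Nonempty) (S : PerfectSolution Φ N) :
    (R : ℝ) ^ (-((√d - 1) / (√d + 1))) / (10 ^ 7 * (d : ℝ) ^ 5 * (1 + Real.log R)) ≤
      Φ.value := by
  classical
  obtain ⟨e₁, he₁⟩ := id hE
  have hR : 0 < R := by
    rcases Nat.eq_zero_or_pos R with h | h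
    · subst h
      have := S.norm_x e₁.1
      simp at this
    · exact h
  have hR' : (0 : ℝ) < R := by exact_mod_cast hR
  have hR1 : (1 : ℝ) ≤ R := by exact_mod_cast hR
  have hd' : (0 : ℝ) < d := by exact_mod_cast hd
  have hd1 : (1 : ℝ) ≤ d := by exact_mod_cast hd
  have hl : 0 ≤ Real.log R := Real.log_nonneg hR1
  have hsd : 1 ≤ √(d : ℝ) := Real.one_le_sqrt.2 hd1
  obtain ⟨s, hs⟩ : ∃ s : ℝ, s = 2 * √d / (√d + 1) := ⟨_, rfl⟩
  have hs1 : 1 ≤ s := by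
    rw [hs, le_div_iff₀ (by linarith)]
    linarith
  have hs2 : s ≤ 2 := by
    rw [hs, div_le_iff₀ (by linarith)]
    linarith
  -- the large vectors
  have hdR : Nonempty (Fin (d * R)) := ⟨⟨0, Nat.mul_pos hd hR⟩⟩
  have hbig : ∀ (e : V × W) (a : Fin R), ∃ b : Fin (d * R), e ∈ Φ.E → a ∈ hv (S.x e.1) →
      Φ.π e b = a ∧ ‖S.x e.1 a‖ ^ 2 / d ≤ ‖S.y e.2 b‖ ^ 2 ∧
        ‖S.y e.2 b‖ ^ 2 ≤ ‖S.x e.1 a‖ ^ 2 := by
    intro e a
    by_cases h : e ∈ Φ.E ∧ a ∈ hv (S.x e.1)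
    · obtain ⟨b, hb⟩ := big hd S h.1 a (hv_ne hR h.2)
      exact ⟨b, fun _ _ => hb⟩
    · exact ⟨Classical.arbitrary _, fun h1 h2 => absurd ⟨h1, h2⟩ h⟩
  choose b hb using hbig
  have hav := average hd Φ hE S hR b (fun e he a ha => (hb e a he ha).1)
  have hZ : 0 < P (Set.univ : Set (Eu N)) := P_univ_pos
  have hn : (0 : ℝ) < (Φ.E.card : ℝ) := by exact_mod_cast hE.card_pos
  -- the bound of a pair
  obtain ⟨κ, hκ⟩ : ∃ κ : ℝ, κ = Real.exp (-1) / (14400 * (8 * d * (1 + Real.log R))) := ⟨_, rfl⟩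
  have hκ0 : 0 < κ := by rw [hκ]; positivity
  have hpair : ∀ e ∈ Φ.E, ∀ a ∈ hv (S.x e.1),
      κ * (‖S.x e.1 a‖ ^ 2 / d) ^ s * P (Set.univ : Set (Eu N)) ≤
        P (Sel (S.x e.1 a) ∩ Sel (S.y e.2 (b e a))) := by
    intro e he a ha
    obtain ⟨h1, h2, h3⟩ := hb e a he ha
    refine le_trans ?_ (pair_ge hd S he a (hv_ne hR ha) (b e a) h1 h2 h3)
    rw [← hs]
    refine mul_le_mul_of_nonneg_right ?_ hZ.le
    refine mul_le_mul_of_nonneg_right ?_ (Real.rpow_nonneg (by positivity) _)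
    rw [hκ]
    refine div_le_div_of_nonneg_left (Real.exp_pos _).le ?_ ?_
    · have := thr_nonneg (‖S.x e.1 a‖ ^ 2 / d)
      positivity
    · exact mul_le_mul_of_nonneg_left (thr_bound hR hd (Finset.mem_filter.1 ha).2) (by norm_num)
  have hedge : ∀ e ∈ Φ.E, 4 / ((d : ℝ) + 3) ^ 2 * (κ * (R * (1 / (2 * d * R)) ^ s) *
      P (Set.univ : Set (Eu N))) ≤ ∑ a ∈ hv (S.x e.1), 4 / ((d : ℝ) + 3) ^ 2 *
      P (Sel (S.x e.1 a) ∩ Sel (S.y e.2 (b e a))) := by
    intro e he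
    rw [← Finset.mul_sum]
    refine mul_le_mul_of_nonneg_left ?_ (by positivity)
    refine le_trans ?_ (Finset.sum_le_sum fun a ha => hpair e he a ha)
    rw [← Finset.sum_mul, ← Finset.mul_sum]
    refine mul_le_mul_of_nonneg_right ?_ hZ.le
    exact mul_le_mul_of_nonneg_left (hv_pow hR hd (S.norm_x e.1) hs1) hκ0.le
  have htot := (Finset.sum_le_sum hedge).trans hav
  rw [Finset.sum_const, nsmul_eq_mul] at htot
  have h1 : 4 / ((d : ℝ) + 3) ^ 2 * (κ * (R * (1 / (2 * d * R)) ^ s)) ≤ Φ.value := by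
    have h2 : Φ.E.card * P (Set.univ : Set (Eu N)) *
        (4 / ((d : ℝ) + 3) ^ 2 * (κ * (R * (1 / (2 * d * R)) ^ s))) ≤
        Φ.E.card * P (Set.univ : Set (Eu N)) * Φ.value := by
      linarith
    exact le_of_mul_le_mul_left h2 (by positivity)
  refine le_trans ?_ h1
  -- numbers
  have h2 : (1 / (2 * d * R : ℝ)) ^ s = (1 / (2 * d : ℝ)) ^ s * (1 / (R : ℝ)) ^ s := by
    rw [← Real.mul_rpow (by positivity) (by positivity)]
    congr 1
    field_simp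
  have h3 : (1 / (2 * d : ℝ)) ^ (2 : ℝ) ≤ (1 / (2 * d : ℝ)) ^ s := by
    refine Real.rpow_le_rpow_of_exponent_ge (by positivity) ?_ hs2
    rw [div_le_one (by positivity)]
    linarith
  have h4 : (R : ℝ) * (1 / (R : ℝ)) ^ s = (R : ℝ) ^ (-((√d - 1) / (√d + 1))) := by
    rw [one_div, Real.inv_rpow hR'.le, ← Real.rpow_neg hR'.le]
    nth_rewrite 1 [← Real.rpow_one (R : ℝ)]
    rw [← Real.rpow_add hR']
    congr 1
    rw [hs]
    have : √(d : ℝ) + 1 ≠ 0 := by linarith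
    field_simp
    ring
  have h5 : 1 / (4 * (d : ℝ) ^ 2) * (R : ℝ) ^ (-((√d - 1) / (√d + 1))) ≤
      R * (1 / (2 * d * R)) ^ s := by
    rw [h2, ← h4]
    have h6 : (1 / (2 * d : ℝ)) ^ (2 : ℝ) = 1 / (4 * (d : ℝ) ^ 2) := by
      rw [Real.rpow_two, div_pow]
      congr 1
      · norm_num
      · ring
    rw [← h6]
    have h7 : 0 ≤ (R : ℝ) * (1 / (R : ℝ)) ^ s := by positivity
    have := mul_le_mul_of_nonneg_right h3 h7
    linarith
  have h6 : Real.exp (-1) ≥ 1 / 2.7182818286 := by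
    rw [Real.exp_neg, ← one_div]
    exact one_div_le_one_div_of_le (Real.exp_pos 1) Real.exp_one_lt_d9.le
  have hρ : 0 ≤ (R : ℝ) ^ (-((√d - 1) / (√d + 1))) := by positivity
  have h7 : 1 / (4 * (d : ℝ) ^ 2) ≤ 4 / ((d : ℝ) + 3) ^ 2 := by
    rw [div_le_div_iff₀ (by positivity) (by positivity)]
    nlinarith
  have h8 : 1 / (10 ^ 7 * (d : ℝ) ^ 5 * (1 + Real.log R)) ≤
      1 / (4 * (d : ℝ) ^ 2) * (κ * (1 / (4 * (d : ℝ) ^ 2))) := by
    have h9 : 1 / 2.7182818286 / (14400 * (8 * d * (1 + Real.log R))) ≤ κ := by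
      rw [hκ]
      exact div_le_div_of_nonneg_right h6 (by positivity)
    have h10 : 1 / (10 ^ 7 * (d : ℝ) ^ 5 * (1 + Real.log R)) ≤
        1 / (4 * (d : ℝ) ^ 2) * ((1 / 2.7182818286 / (14400 * (8 * d * (1 + Real.log R)))) *
          (1 / (4 * (d : ℝ) ^ 2))) := by
      have e1 : 1 / (4 * (d : ℝ) ^ 2) * ((1 / 2.7182818286 / (14400 * (8 * d *
          (1 + Real.log R)))) * (1 / (4 * (d : ℝ) ^ 2))) =
          1 / (2.7182818286 * 14400 * 128 * (d : ℝ) ^ 5 * (1 + Real.log R)) := by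
        have : (1 + Real.log R) ≠ 0 := by positivity
        field_simp
        norm_num
      rw [e1]
      refine one_div_le_one_div_of_le (by positivity) ?_
      refine mul_le_mul_of_nonneg_right ?_ (by positivity)
      refine mul_le_mul_of_nonneg_right ?_ (by positivity)
      norm_num
    refine h10.trans ?_
    gcongr
  calc (R : ℝ) ^ (-((√d - 1) / (√d + 1))) / (10 ^ 7 * (d : ℝ) ^ 5 * (1 + Real.log R))
      = 1 / (10 ^ 7 * (d : ℝ) ^ 5 * (1 + Real.log R)) *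
          (R : ℝ) ^ (-((√d - 1) / (√d + 1))) := by ring
    _ ≤ 1 / (4 * (d : ℝ) ^ 2) * (κ * (1 / (4 * (d : ℝ) ^ 2))) *
          (R : ℝ) ^ (-((√d - 1) / (√d + 1))) := mul_le_mul_of_nonneg_right h8 hρ
    _ = 1 / (4 * (d : ℝ) ^ 2) * (κ * (1 / (4 * (d : ℝ) ^ 2) *
          (R : ℝ) ^ (-((√d - 1) / (√d + 1))))) := by ring
    _ ≤ 4 / ((d : ℝ) + 3) ^ 2 * (κ * (R * (1 / (2 * d * R)) ^ s)) := by
        gcongr

end

end Pool.Agent.H8.SR
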