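import Pool.Agent.H8.SR.Gauss
import Pool.Agent.H76.DTO.SharpLower

/-!
Gaussian rounding of a value-one solution of the basic semidefinite relaxation of d-to-1 Label Cover.
-/

namespace Pool.Agent.H8.SR

open Finset MeasureTheory Pool.Agent.H76.DTO
open scoped RealInnerProductSpace

noncomputable section

variable {V W : Type} {d R N : ℕ}

/-- the threshold belonging to the probability `c` -/
def thr (c : ℝ) : ℝ := √(2 * Real.log (1 / c))

lemma thr_nonneg (c : ℝ) : 0 ≤ thr c := Real.sqrt_nonneg _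

lemma thr_sq {c : ℝ} (h0 : 0 < c) (h1 : c ≤ 1) : thr c ^ 2 = 2 * Real.log (1 / c) := by
  have h2 : 0 ≤ Real.log (1 / c) := Real.log_nonneg ((one_le_div h0).2 h1)
  exact Real.sq_sqrt (by positivity)

lemma exp_thr {c : ℝ} (h0 : 0 < c) (h1 : c ≤ 1) : Real.exp (-(thr c ^ 2 / 2)) = c := by
  rw [thr_sq h0 h1, mul_div_cancel_left₀ _ (by norm_num : (2 : ℝ) ≠ 0), one_div, Real.log_inv,
    neg_neg, Real.exp_log h0]

lemma thr_anti {c c' : ℝ} (h0 : 0 < c) (h : c ≤ c') : thr c' ≤ thr c := by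
  refine Real.sqrt_le_sqrt ?_
  have h1 : Real.log (1 / c') ≤ Real.log (1 / c) :=
    Real.log_le_log (one_div_pos.2 (h0.trans_le h)) (one_div_le_one_div_of_le h0 h)
  linarith

/-- the unit vector in the direction of `x` -/
def un (x : Eu N) : Eu N := (‖x‖)⁻¹ • x

lemma norm_un {x : Eu N} (hx : x ≠ 0) : ‖un x‖ = 1 := by
  rw [un, norm_smul, norm_inv, norm_norm]
  exact inv_mul_cancel₀ (norm_ne_zero_iff.2 hx)

lemma inner_un (x y : Eu N) : ⟪un x, un y⟫ = ⟪x, y⟫ / (‖x‖ * ‖y‖) := by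
  rw [un, un, inner_smul_left, inner_smul_right]
  simp only [conj_trivial]
  rw [div_eq_mul_inv, mul_inv]
  ring

/-- the Gaussian vectors which select the label with the vector `x` -/
def Sel (x : Eu N) : Set (Eu N) := {g | x ≠ 0 ∧ thr (‖x‖ ^ 2) ≤ ⟪un x, g⟫}

lemma Sel_eq {x : Eu N} (hx : x ≠ 0) : Sel x = {g | thr (‖x‖ ^ 2) ≤ ⟪un x, g⟫} := by
  ext g
  simp [Sel, hx]

lemma Sel_zero : Sel (0 : Eu N) = ∅ := by
  ext g
  simp [Sel]

lemma meas_Sel (x : Eu N) : MeasurableSet (Sel x) := by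
  rcases eq_or_ne x 0 with rfl | hx
  · rw [Sel_zero]; exact MeasurableSet.empty
  · rw [Sel_eq hx]; exact meas_ge _ _

lemma inv_Sel {x z : Eu N} (h : ⟪x, z⟫ = 0) : Inv (Sel x) (un z) := by
  intro g hg s
  refine ⟨hg.1, ?_⟩
  rw [inner_add_right, inner_smul_right, inner_un, h, zero_div, mul_zero, add_zero]
  exact hg.2

lemma inv_inter {S T : Set (Eu N)} {z : Eu N} (hS : Inv S z) (hT : Inv T z) : Inv (S ∩ T) z :=
  fun g hg s => ⟨hS g hg.1 s, hT g hg.2 s⟩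

lemma P_inter_Sel {S : Set (Eu N)} (hS : MeasurableSet S) {x : Eu N} (hx1 : ‖x‖ ≤ 1)
    (hinv : Inv S (un x)) : P (S ∩ Sel x) ≤ ‖x‖ ^ 2 * P S := by
  rcases eq_or_ne x 0 with rfl | hx
  · rw [Sel_zero, Set.inter_empty, norm_zero]
    have : P (∅ : Set (Eu N)) = 0 := by simp [P]
    rw [this]
    simp
  · rw [Sel_eq hx]
    have h1 := tail hS (norm_un hx) hinv (thr_nonneg (‖x‖ ^ 2))
    have hp : 0 < ‖x‖ := norm_pos_iff.2 hx
    rwa [exp_thr (by positivity) (by nlinarith)] at h1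

/-- the indicator with values 0 and 1 -/
def chi (S : Set (Eu N)) (g : Eu N) : ℝ := S.indicator (fun _ => (1 : ℝ)) g

lemma chi_nonneg (S : Set (Eu N)) (g : Eu N) : 0 ≤ chi S g :=
  Set.indicator_nonneg (fun _ _ => zero_le_one) g

lemma chi_le_one (S : Set (Eu N)) (g : Eu N) : chi S g ≤ 1 :=
  Set.indicator_le_self' (fun _ _ => zero_le_one) g

lemma chi_mem {S : Set (Eu N)} {g : Eu N} (h : g ∈ S) : chi S g = 1 := Set.indicator_of_mem h _

lemma ind_gw (S : Set (Eu N)) (g : Eu N) : S.indicator gw g = chi S g * gw g := by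
  by_cases h : g ∈ S
  · rw [Set.indicator_of_mem h, chi_mem h, one_mul]
  · rw [Set.indicator_of_notMem h, chi, Set.indicator_of_notMem h, zero_mul]

lemma ind_inter (S T : Set (Eu N)) (g : Eu N) :
    (S ∩ T).indicator gw g = chi S g * chi T g * gw g := by
  by_cases h : g ∈ S
  · by_cases h2 : g ∈ T
    · rw [Set.indicator_of_mem (show g ∈ S ∩ T from ⟨h, h2⟩), chi_mem h, chi_mem h2]; ring
    · rw [Set.indicator_of_notMem (fun h3 => h2 h3.2), chi_mem h, chi, Set.indicator_of_notMem h2]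
      ring
  · rw [Set.indicator_of_notMem (fun h3 => h h3.1), chi, Set.indicator_of_notMem h]; ring

/-- the number of selected labels -/
def cnt {α : Type} [Fintype α] (x : α → Eu N) (g : Eu N) : ℝ := ∑ a, chi (Sel (x a)) g

lemma cnt_nonneg {α : Type} [Fintype α] (x : α → Eu N) (g : Eu N) : 0 ≤ cnt x g :=
  Finset.sum_nonneg fun a _ => chi_nonneg _ _

lemma one_le_cnt {α : Type} [Fintype α] (x : α → Eu N) {g : Eu N} {a : α} (h : g ∈ Sel (x a)) :
    1 ≤ cnt x g := by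
  rw [← chi_mem h]
  exact Finset.single_le_sum (f := fun a => chi (Sel (x a)) g) (fun b _ => chi_nonneg _ _)
    (Finset.mem_univ a)

/-- the probability of the label `a` in the rounding -/
def pr {α : Type} [Fintype α] (x : α → Eu N) (a : α) (g : Eu N) : ℝ :=
  chi (Sel (x a)) g / cnt x g

lemma pr_nonneg {α : Type} [Fintype α] (x : α → Eu N) (a : α) (g : Eu N) : 0 ≤ pr x a g :=
  div_nonneg (chi_nonneg _ _) (cnt_nonneg _ _)

lemma pr_sum {α : Type} [Fintype α] (x : α → Eu N) (g : Eu N) : ∑ a, pr x a g ≤ 1 := by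
  have : ∑ a, pr x a g = cnt x g / cnt x g := by
    rw [cnt, Finset.sum_div]
    rfl
  rw [this]
  exact div_self_le_one _

/-- the tangent line -/
lemma tangent {X Y M : ℝ} (hX : 1 ≤ X) (hY : 1 ≤ Y) (hM : 0 < M) :
    4 / M ^ 3 * (3 * M - 2 * (X + Y)) ≤ 1 / X * (1 / Y) := by
  have h1 : 4 / (X + Y) ^ 2 ≤ 1 / X * (1 / Y) := by
    rw [one_div_mul_one_div, div_le_div_iff₀ (by positivity) (by positivity)]
    nlinarith [sq_nonneg (X - Y)]
  refine le_trans ?_ h1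
  obtain ⟨s, hs⟩ : ∃ s, s = X + Y := ⟨_, rfl⟩
  have hs0 : 0 < s := by linarith
  rw [← hs, div_mul_eq_mul_div, div_le_div_iff₀ (by positivity) (by positivity)]
  have h2 : 0 ≤ (M - s) ^ 2 * (M + 2 * s) := by positivity
  nlinarith

/-- the pointwise bound of the contribution of a pair of labels -/
lemma pointwise {α β : Type} [Fintype α] [Fintype β] (x : α → Eu N) (y : β → Eu N) (a : α) (b : β)
    {M : ℝ} (hM : 0 < M) (g : Eu N) :
    4 / M ^ 3 * (3 * M * (Sel (x a) ∩ Sel (y b)).indicator gw g -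
      2 * (∑ a', ((Sel (x a) ∩ Sel (y b)) ∩ Sel (x a')).indicator gw g +
        ∑ b', ((Sel (x a) ∩ Sel (y b)) ∩ Sel (y b')).indicator gw g)) ≤
      pr x a g * pr y b g * gw g := by
  simp only [ind_inter _ (Sel (x _)), ind_inter _ (Sel (y _))]
  by_cases hg : g ∈ Sel (x a) ∩ Sel (y b)
  · have e1 : chi (Sel (x a) ∩ Sel (y b)) g = 1 := chi_mem hg
    have e2 : chi (Sel (x a)) g = 1 := chi_mem hg.1
    have e3 : chi (Sel (y b)) g = 1 := chi_mem hg.2
    have h1 := tangent (one_le_cnt x hg.1) (one_le_cnt y hg.2) hM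
    have h2 := mul_le_mul_of_nonneg_right h1 (gw_pos g).le
    have e4 : ∑ a', chi (Sel (x a) ∩ Sel (y b)) g * chi (Sel (x a')) g * gw g =
        cnt x g * gw g := by
      rw [cnt, Finset.sum_mul]
      exact Finset.sum_congr rfl fun a' _ => by rw [e1, one_mul]
    have e5 : ∑ b', chi (Sel (x a) ∩ Sel (y b)) g * chi (Sel (y b')) g * gw g =
        cnt y g * gw g := by
      rw [cnt, Finset.sum_mul]
      exact Finset.sum_congr rfl fun a' _ => by rw [e1, one_mul]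
    rw [e4, e5, pr, pr, e2, e3]
    refine le_trans (le_of_eq ?_) h2
    ring
  · have e1 : chi (Sel (x a) ∩ Sel (y b)) g = 0 := Set.indicator_of_notMem hg _
    have e2 : chi (Sel (x a)) g * chi (Sel (y b)) g = 0 := by
      by_cases h3 : g ∈ Sel (x a)
      · have : chi (Sel (y b)) g = 0 := Set.indicator_of_notMem (fun h4 => hg ⟨h3, h4⟩) _
        rw [this, mul_zero]
      · have : chi (Sel (x a)) g = 0 := Set.indicator_of_notMem h3 _
        rw [this, zero_mul]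
    simp only [e1, e2, zero_mul, mul_zero, Finset.sum_const_zero, add_zero, sub_zero]
    exact mul_nonneg (mul_nonneg (pr_nonneg _ _ _) (pr_nonneg _ _ _)) (gw_pos g).le

/-- the integral of the lower function -/
lemma lower_int {α β : Type} [Fintype α] [Fintype β] (x : α → Eu N) (y : β → Eu N) (a : α) (b : β)
    (M : ℝ) :
    Integrable (fun g => 4 / M ^ 3 * (3 * M * (Sel (x a) ∩ Sel (y b)).indicator gw g -
      2 * (∑ a', ((Sel (x a) ∩ Sel (y b)) ∩ Sel (x a')).indicator gw g +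
        ∑ b', ((Sel (x a) ∩ Sel (y b)) ∩ Sel (y b')).indicator gw g))) ∧
    ∫ g, 4 / M ^ 3 * (3 * M * (Sel (x a) ∩ Sel (y b)).indicator gw g -
      2 * (∑ a', ((Sel (x a) ∩ Sel (y b)) ∩ Sel (x a')).indicator gw g +
        ∑ b', ((Sel (x a) ∩ Sel (y b)) ∩ Sel (y b')).indicator gw g)) =
      4 / M ^ 3 * (3 * M * P (Sel (x a) ∩ Sel (y b)) -
      2 * (∑ a', P ((Sel (x a) ∩ Sel (y b)) ∩ Sel (x a')) +
        ∑ b', P ((Sel (x a) ∩ Sel (y b)) ∩ Sel (y b')))) := by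
  have hA : MeasurableSet (Sel (x a) ∩ Sel (y b)) := (meas_Sel _).inter (meas_Sel _)
  have i1 : Integrable ((Sel (x a) ∩ Sel (y b)).indicator gw) := gw_int.indicator hA
  have i2 : ∀ a' ∈ (Finset.univ : Finset α),
      Integrable (((Sel (x a) ∩ Sel (y b)) ∩ Sel (x a')).indicator gw) :=
    fun a' _ => gw_int.indicator (hA.inter (meas_Sel _))
  have i3 : ∀ b' ∈ (Finset.univ : Finset β),
      Integrable (((Sel (x a) ∩ Sel (y b)) ∩ Sel (y b')).indicator gw) :=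
    fun a' _ => gw_int.indicator (hA.inter (meas_Sel _))
  have i4 := integrable_finsetSum Finset.univ i2
  have i5 := integrable_finsetSum Finset.univ i3
  have i6 : Integrable (fun g => ∑ a', ((Sel (x a) ∩ Sel (y b)) ∩ Sel (x a')).indicator gw g +
      ∑ b', ((Sel (x a) ∩ Sel (y b)) ∩ Sel (y b')).indicator gw g) := i4.add i5
  have i7 : Integrable (fun g => 2 *
      (∑ a', ((Sel (x a) ∩ Sel (y b)) ∩ Sel (x a')).indicator gw g +
      ∑ b', ((Sel (x a) ∩ Sel (y b)) ∩ Sel (y b')).indicator gw g)) := i6.const_mul 2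
  have i8 : Integrable (fun g => 3 * M * (Sel (x a) ∩ Sel (y b)).indicator gw g) :=
    i1.const_mul (3 * M)
  refine ⟨(i8.sub i7).const_mul (4 / M ^ 3), ?_⟩
  rw [integral_const_mul, integral_sub i8 i7, integral_const_mul, integral_const_mul,
    integral_add i4 i5, integral_finsetSum _ i2, integral_finsetSum _ i3]
  rfl

section Sol

variable {Φ : LabelCover V W d R}

lemma x_le_one (S : PerfectSolution Φ N) (v : V) (a : Fin R) : ‖S.x v a‖ ≤ 1 := by
  have h1 : ‖S.x v a‖ ^ 2 ≤ 1 := by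
    rw [← S.norm_x v]
    exact Finset.single_le_sum (f := fun a => ‖S.x v a‖ ^ 2) (fun b _ => sq_nonneg _)
      (Finset.mem_univ a)
  nlinarith [norm_nonneg (S.x v a)]

lemma y_le_one (S : PerfectSolution Φ N) (w : W) (b : Fin (d * R)) : ‖S.y w b‖ ≤ 1 := by
  have h1 : ‖S.y w b‖ ^ 2 ≤ 1 := by
    rw [← S.norm_y w]
    exact Finset.single_le_sum (f := fun a => ‖S.y w a‖ ^ 2) (fun b _ => sq_nonneg _)
      (Finset.mem_univ b)
  nlinarith [norm_nonneg (S.y w b)]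

/-- the number of selected left labels, given a selected pair -/
lemma comp_x (S : PerfectSolution Φ N) {e : V × W} (he : e ∈ Φ.E) (a : Fin R) (b : Fin (d * R))
    (hb : Φ.π e b = a) :
    ∑ a', P ((Sel (S.x e.1 a) ∩ Sel (S.y e.2 b)) ∩ Sel (S.x e.1 a')) ≤
      2 * P (Sel (S.x e.1 a) ∩ Sel (S.y e.2 b)) := by
  have hA : MeasurableSet (Sel (S.x e.1 a) ∩ Sel (S.y e.2 b)) := (meas_Sel _).inter (meas_Sel _)
  have hP := P_nonneg (Sel (S.x e.1 a) ∩ Sel (S.y e.2 b))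
  have h1 : ∀ a' ∈ (Finset.univ : Finset (Fin R)),
      P ((Sel (S.x e.1 a) ∩ Sel (S.y e.2 b)) ∩ Sel (S.x e.1 a')) ≤
        (if a' = a then P (Sel (S.x e.1 a) ∩ Sel (S.y e.2 b)) else 0) +
          ‖S.x e.1 a'‖ ^ 2 * P (Sel (S.x e.1 a) ∩ Sel (S.y e.2 b)) := by
    intro a' _
    split_ifs with h
    · have h2 := P_mono (hA.inter (meas_Sel (S.x e.1 a'))) hA Set.inter_subset_left
      have h3 : 0 ≤ ‖S.x e.1 a'‖ ^ 2 * P (Sel (S.x e.1 a) ∩ Sel (S.y e.2 b)) := by positivity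
      linarith
    · rw [zero_add]
      refine P_inter_Sel hA (x_le_one S _ _) (inv_inter (inv_Sel ?_) (inv_Sel ?_))
      · exact S.orth_x e.1 a a' (Ne.symm h)
      · rw [real_inner_comm, inner_edge S he, if_neg (by rw [hb]; exact Ne.symm h)]
  refine (Finset.sum_le_sum h1).trans ?_
  rw [Finset.sum_add_distrib, ← Finset.sum_mul, S.norm_x, Finset.sum_ite_eq' Finset.univ a,
    if_pos (Finset.mem_univ _)]
  linarith

/-- the number of selected right labels, given a selected pair -/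
lemma comp_y (S : PerfectSolution Φ N) {e : V × W} (he : e ∈ Φ.E) (a : Fin R) (b : Fin (d * R))
    (hb : Φ.π e b = a) :
    ∑ b', P ((Sel (S.x e.1 a) ∩ Sel (S.y e.2 b)) ∩ Sel (S.y e.2 b')) ≤
      (d + 1) * P (Sel (S.x e.1 a) ∩ Sel (S.y e.2 b)) := by
  have hA : MeasurableSet (Sel (S.x e.1 a) ∩ Sel (S.y e.2 b)) := (meas_Sel _).inter (meas_Sel _)
  have hP := P_nonneg (Sel (S.x e.1 a) ∩ Sel (S.y e.2 b))
  have h1 : ∀ b' ∈ (Finset.univ : Finset (Fin (d * R))),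
      P ((Sel (S.x e.1 a) ∩ Sel (S.y e.2 b)) ∩ Sel (S.y e.2 b')) ≤
        (if Φ.π e b' = a then P (Sel (S.x e.1 a) ∩ Sel (S.y e.2 b)) else 0) +
          ‖S.y e.2 b'‖ ^ 2 * P (Sel (S.x e.1 a) ∩ Sel (S.y e.2 b)) := by
    intro b' _
    split_ifs with h
    · have h2 := P_mono (hA.inter (meas_Sel (S.y e.2 b'))) hA Set.inter_subset_left
      have h3 : 0 ≤ ‖S.y e.2 b'‖ ^ 2 * P (Sel (S.x e.1 a) ∩ Sel (S.y e.2 b)) := by positivity
      linarith
    · rw [zero_add]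
      refine P_inter_Sel hA (y_le_one S _ _) (inv_inter (inv_Sel ?_) (inv_Sel ?_))
      · rw [inner_edge S he, if_neg h]
      · refine S.orth_y e.2 b b' ?_
        rintro rfl
        exact h hb
  refine (Finset.sum_le_sum h1).trans ?_
  rw [Finset.sum_add_distrib, ← Finset.sum_mul, S.norm_y, ← Finset.sum_filter, Finset.sum_const,
    nsmul_eq_mul]
  have h2 : ((Finset.univ.filter (fun b' => Φ.π e b' = a)).card : ℝ) ≤ d := by
    exact_mod_cast Φ.dto1 e he a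
  have h3 := mul_le_mul_of_nonneg_right h2 hP
  linarith

/-- the large vector in a fibre -/
lemma big (hd : 0 < d) (S : PerfectSolution Φ N) {e : V × W} (he : e ∈ Φ.E) (a : Fin R)
    (ha : S.x e.1 a ≠ 0) :
    ∃ b : Fin (d * R), Φ.π e b = a ∧ ‖S.x e.1 a‖ ^ 2 / d ≤ ‖S.y e.2 b‖ ^ 2 ∧
      ‖S.y e.2 b‖ ^ 2 ≤ ‖S.x e.1 a‖ ^ 2 := by
  have h1 : ‖S.x e.1 a‖ ^ 2 =
      ∑ b ∈ Finset.univ.filter (fun b => Φ.π e b = a), ‖S.y e.2 b‖ ^ 2 := by
    nth_rewrite 1 [← real_inner_self_eq_norm_sq, fiber_eq S he a]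
    rw [sum_inner]
    refine Finset.sum_congr rfl fun b hb => ?_
    rw [real_inner_comm, inner_edge S he, if_pos (Finset.mem_filter.1 hb).2]
  have hp : 0 < ‖S.x e.1 a‖ ^ 2 := by
    have := norm_pos_iff.2 ha
    positivity
  have hne : (Finset.univ.filter (fun b => Φ.π e b = a)).Nonempty := by
    by_contra h
    rw [Finset.not_nonempty_iff_eq_empty] at h
    rw [h, Finset.sum_empty] at h1
    linarith
  obtain ⟨b, hb, hmax⟩ := Finset.exists_max_image _ (fun b => ‖S.y e.2 b‖ ^ 2) hne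
  refine ⟨b, (Finset.mem_filter.1 hb).2, ?_, ?_⟩
  · rw [div_le_iff₀ (by exact_mod_cast hd)]
    calc ‖S.x e.1 a‖ ^ 2 =
          ∑ b ∈ Finset.univ.filter (fun b => Φ.π e b = a), ‖S.y e.2 b‖ ^ 2 := h1
      _ ≤ ∑ _b ∈ Finset.univ.filter (fun b => Φ.π e b = a), ‖S.y e.2 b‖ ^ 2 :=
          Finset.sum_le_sum fun b' hb' => hmax b' hb'
      _ = (Finset.univ.filter (fun b => Φ.π e b = a)).card * ‖S.y e.2 b‖ ^ 2 := by
          rw [Finset.sum_const, nsmul_eq_mul]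
      _ ≤ ‖S.y e.2 b‖ ^ 2 * d := by
          rw [mul_comm]
          exact mul_le_mul_of_nonneg_left (by exact_mod_cast Φ.dto1 e he a) (sq_nonneg _)
  · rw [h1]
    exact Finset.single_le_sum (f := fun b => ‖S.y e.2 b‖ ^ 2) (fun b _ => sq_nonneg _) hb

/-- the probability that a pair of labels is selected -/
lemma pair_ge (hd : 0 < d) (S : PerfectSolution Φ N) {e : V × W} (he : e ∈ Φ.E) (a : Fin R)
    (ha : S.x e.1 a ≠ 0) (b : Fin (d * R)) (hb : Φ.π e b = a)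
    (h1 : ‖S.x e.1 a‖ ^ 2 / d ≤ ‖S.y e.2 b‖ ^ 2) (h2 : ‖S.y e.2 b‖ ^ 2 ≤ ‖S.x e.1 a‖ ^ 2) :
    Real.exp (-1) / (14400 * (1 + thr (‖S.x e.1 a‖ ^ 2 / d)) ^ 2) *
      (‖S.x e.1 a‖ ^ 2 / d) ^ (2 * √d / (√d + 1)) *
      P (Set.univ : Set (Eu N)) ≤ P (Sel (S.x e.1 a) ∩ Sel (S.y e.2 b)) := by
  have hd' : (0 : ℝ) < d := by exact_mod_cast hd
  have hsd : 0 < √(d : ℝ) := Real.sqrt_pos.2 hd'
  have hx : 0 < ‖S.x e.1 a‖ := norm_pos_iff.2 ha
  have hm : 0 < ‖S.x e.1 a‖ ^ 2 / d := by positivity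
  have hy2 : 0 < ‖S.y e.2 b‖ ^ 2 := hm.trans_le h1
  have hy0 : S.y e.2 b ≠ 0 := by
    intro h
    rw [h, norm_zero] at hy2
    norm_num at hy2
  have hy : 0 < ‖S.y e.2 b‖ := norm_pos_iff.2 hy0
  have hx1 : ‖S.x e.1 a‖ ^ 2 ≤ 1 := by nlinarith [x_le_one S e.1 a]
  have hm1 : ‖S.x e.1 a‖ ^ 2 / d ≤ 1 := by linarith
  obtain ⟨ρ, hρ⟩ : ∃ ρ : ℝ, ρ = ‖S.y e.2 b‖ / ‖S.x e.1 a‖ := ⟨_, rfl⟩
  have hin : ⟪un (S.x e.1 a), un (S.y e.2 b)⟫ = ρ := by
    rw [inner_un, inner_edge S he, if_pos hb, hρ]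
    field_simp
  have hρ0 : 0 ≤ ρ := by rw [hρ]; positivity
  have hρ1 : 1 / √d ≤ ρ := by
    have h3 : (1 / √d) ^ 2 ≤ ρ ^ 2 := by
      rw [hρ, div_pow, div_pow, Real.sq_sqrt hd'.le, div_le_div_iff₀ hd' (by positivity)]
      rw [div_le_iff₀ hd'] at h1
      linarith
    exact le_of_sq_le_sq h3 hρ0
  have hT0 := thr_nonneg (‖S.x e.1 a‖ ^ 2 / d)
  have ht1 : thr (‖S.x e.1 a‖ ^ 2) ≤ thr (‖S.x e.1 a‖ ^ 2 / d) := by
    refine thr_anti hm ?_
    rw [div_le_iff₀ hd']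
    have : (1 : ℝ) ≤ d := by exact_mod_cast hd
    nlinarith
  have ht2 : thr (‖S.y e.2 b‖ ^ 2) ≤ thr (‖S.x e.1 a‖ ^ 2 / d) := thr_anti hm h1
  have h3 := joint (un (S.x e.1 a)) (un (S.y e.2 b)) (norm_un ha) (norm_un hy0)
    (by rw [hin]; exact hρ0) hT0 ht1 ht2
  rw [hin, ← Sel_eq ha, ← Sel_eq hy0] at h3
  refine le_trans ?_ h3
  refine mul_le_mul_of_nonneg_right ?_ (P_nonneg _)
  refine mul_le_mul_of_nonneg_left ?_ (by positivity)
  -- the power
  have h4 : (‖S.x e.1 a‖ ^ 2 / d) ^ (2 * √d / (√d + 1)) =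
      Real.exp (-(thr (‖S.x e.1 a‖ ^ 2 / d) ^ 2 / (1 + 1 / √d))) := by
    rw [thr_sq hm hm1, Real.rpow_def_of_pos hm, one_div (‖S.x e.1 a‖ ^ 2 / d), Real.log_inv]
    congr 1
    field_simp
  rw [h4]
  refine Real.exp_le_exp.2 (neg_le_neg ?_)
  have h5 : 0 < 1 / √(d : ℝ) := by positivity
  exact div_le_div_of_nonneg_left (sq_nonneg _) (by linarith) (by linarith)

end Sol

end

end Pool.Agent.H8.SR
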